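import Mathlib
import Pool.Agent.helper84.QD.Defs

/-! # MODULE QD-G of MP_747ad5_an: Green's function under a conformal map -/

open Metric Set Topology Filter MeasureTheory
open scoped ENNReal ComplexConjugate

namespace Pool.Agent.helper45.QD
open Pool.Agent.helper84.QD

/-- Blaschke factor -/
noncomputable def Bl (a w : ℂ) : ℂ := (w - a) / (1 - conj a * w)

theorem gr_eq (z y : ℂ) : gr z y = -Real.log ‖Bl y z‖ := by
  rw [gr, Bl, norm_div, ← Real.log_inv, inv_div]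

theorem bl_id (a w : ℂ) :
    ‖1 - conj a * w‖ ^ 2 - ‖w - a‖ ^ 2 = (1 - ‖a‖ ^ 2) * (1 - ‖w‖ ^ 2) := by
  simp only [← Complex.normSq_eq_norm_sq, Complex.normSq_apply, Complex.sub_re, Complex.sub_im,
    Complex.mul_re, Complex.mul_im, Complex.conj_re, Complex.conj_im, Complex.one_re, Complex.one_im]
  ring

theorem den_ne {a w : ℂ} (ha : ‖a‖ < 1) (hw : ‖w‖ ≤ 1) : 1 - conj a * w ≠ 0 := by
  intro h
  have h1 : conj a * w = 1 := (sub_eq_zero.1 h).symm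
  have h2 : ‖conj a * w‖ = 1 := by rw [h1]; simp
  rw [norm_mul, RCLike.norm_conj] at h2
  have : ‖a‖ * ‖w‖ ≤ ‖a‖ * 1 := mul_le_mul_of_nonneg_left hw (norm_nonneg _)
  linarith

theorem norm_Bl_lt {a w : ℂ} (ha : ‖a‖ < 1) (hw : ‖w‖ < 1) : ‖Bl a w‖ < 1 := by
  have hd := den_ne ha hw.le
  rw [Bl, norm_div, div_lt_one (norm_pos_iff.2 hd)]
  have h := bl_id a w
  have h1 : 0 < (1 - ‖a‖ ^ 2) * (1 - ‖w‖ ^ 2) := by
    apply mul_pos <;> nlinarith [norm_nonneg a, norm_nonneg w]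
  exact lt_of_pow_lt_pow_left₀ 2 (norm_nonneg _) (by linarith)

theorem Bl_neg {a w : ℂ} (ha : ‖a‖ < 1) (hw : ‖w‖ < 1) : Bl (-a) (Bl a w) = w := by
  have hd := den_ne ha hw.le
  have haa : 1 - conj a * a ≠ 0 := den_ne ha ha.le
  have h1 : 1 + conj a * ((w - a) / (1 - conj a * w)) = (1 - conj a * a) / (1 - conj a * w) := by
    field_simp
    ring
  have h2 : (w - a) / (1 - conj a * w) + a = w * (1 - conj a * a) / (1 - conj a * w) := by
    rw [eq_div_iff hd, add_mul, div_mul_cancel₀ _ hd]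
    ring
  simp only [Bl, map_neg, sub_neg_eq_add, neg_mul]
  rw [h1, h2, div_div_div_cancel_right₀ hd, mul_div_assoc, div_self haa, mul_one]

theorem Bl_self (a : ℂ) : Bl a a = 0 := by simp [Bl]
theorem Bl_zero (a : ℂ) : Bl a 0 = -a := by simp [Bl]

theorem Bl_ne_zero {a w : ℂ} (ha : ‖a‖ < 1) (hw : ‖w‖ ≤ 1) (h : w ≠ a) : Bl a w ≠ 0 :=
  div_ne_zero (sub_ne_zero.2 h) (den_ne ha hw)

theorem differentiableAt_Bl {a w : ℂ} (ha : ‖a‖ < 1) (hw : ‖w‖ ≤ 1) : DifferentiableAt ℂ (Bl a) w := by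
  unfold Bl
  refine DifferentiableAt.div (by fun_prop) (by fun_prop) (den_ne ha hw)

theorem schwarz_pick {g : ℂ → ℂ} (hg : DifferentiableOn ℂ g (ball 0 1))
    (hm : MapsTo g (ball 0 1) (ball 0 1)) {ξ z : ℂ} (hξ : ξ ∈ ball (0 : ℂ) 1) (hz : z ∈ ball (0 : ℂ) 1) :
    ‖Bl (g ξ) (g z)‖ ≤ ‖Bl ξ z‖ := by
  have hξ' : ‖ξ‖ < 1 := by simpa using hξ
  have hz' : ‖z‖ < 1 := by simpa using hz
  have hgξ : ‖g ξ‖ < 1 := by simpa using hm hξ
  have hnξ : ‖-ξ‖ < 1 := by simpa using hξ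
  have hmap1 : MapsTo (Bl (-ξ)) (ball 0 1) (ball 0 1) := fun w hw => by
    rw [mem_ball_zero_iff] at hw ⊢
    exact norm_Bl_lt hnξ hw
  have hd1 : DifferentiableOn ℂ (Bl (-ξ)) (ball 0 1) := fun w hw => by
    rw [mem_ball_zero_iff] at hw
    exact (differentiableAt_Bl hnξ hw.le).differentiableWithinAt
  have hd2 : DifferentiableOn ℂ (Bl (g ξ)) (ball 0 1) := fun w hw => by
    rw [mem_ball_zero_iff] at hw
    exact (differentiableAt_Bl hgξ hw.le).differentiableWithinAt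
  have hmap2 : MapsTo (Bl (g ξ)) (ball 0 1) (ball 0 1) := fun w hw => by
    rw [mem_ball_zero_iff] at hw ⊢
    exact norm_Bl_lt hgξ hw
  have hd : DifferentiableOn ℂ (fun w => Bl (g ξ) (g (Bl (-ξ) w))) (ball 0 1) :=
    hd2.comp (hg.comp hd1 hmap1) (hm.comp hmap1)
  have hmm : MapsTo (fun w => Bl (g ξ) (g (Bl (-ξ) w))) (ball 0 1) (closedBall 0 1) := fun w hw =>
    ball_subset_closedBall (hmap2 (hm (hmap1 hw)))
  have h0 : Bl (g ξ) (g (Bl (-ξ) 0)) = 0 := by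
    rw [Bl_zero, neg_neg, Bl_self]
  have := Complex.norm_le_norm_of_mapsTo_ball hd hmm h0 (z := Bl ξ z) (norm_Bl_lt hξ' hz')
  simpa [Bl_neg hξ' hz'] using this

theorem gr_mono {g : ℂ → ℂ} (hg : DifferentiableOn ℂ g (ball 0 1)) (hi : InjOn g (ball 0 1))
    (hm : MapsTo g (ball 0 1) (ball 0 1)) {ξ z : ℂ} (hξ : ξ ∈ ball (0 : ℂ) 1) (hz : z ∈ ball (0 : ℂ) 1)
    (hne : z ≠ ξ) : gr z ξ ≤ gr (g z) (g ξ) := by
  rw [gr_eq, gr_eq]
  have h := schwarz_pick hg hm hξ hz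
  have h1 : 0 < ‖Bl (g ξ) (g z)‖ := by
    rw [norm_pos_iff]
    refine Bl_ne_zero (by simpa using hm hξ) (by simpa using (mem_ball_zero_iff.1 (hm hz)).le) ?_
    exact fun h => hne (hi hz hξ h)
  linarith [Real.log_le_log h1 h]

theorem gr_self (z : ℂ) : gr z z = 0 := by simp [gr]

theorem measurable_gr : Measurable fun p : ℂ × ℂ => gr p.1 p.2 := by
  unfold gr
  refine Real.measurable_log.comp (Measurable.div ?_ ?_)
  · have : Continuous fun p : ℂ × ℂ => ‖1 - conj p.2 * p.1‖ := by fun_prop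
    exact this.measurable
  · have : Continuous fun p : ℂ × ℂ => ‖p.1 - p.2‖ := by fun_prop
    exact this.measurable

/-- the pull back by `g` -/
theorem inv_eq {g : ℂ → ℂ} (hi : InjOn g (ball 0 1)) {ξ : ℂ} (hξ : ξ ∈ ball (0 : ℂ) 1) :
    Function.invFunOn g (ball 0 1) (g ξ) = ξ := hi.leftInvOn_invFunOn hξ

theorem measurableSet_image {g : ℂ → ℂ} (hg : DifferentiableOn ℂ g (ball 0 1)) (hi : InjOn g (ball 0 1))
    {C : Set ℂ} (hC : C ⊆ ball 0 1) (hCm : MeasurableSet C) : MeasurableSet (g '' C) :=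
  hCm.image_of_continuousOn_injOn (hg.continuousOn.mono hC) (hi.mono hC)

theorem green_local_one {g : ℂ → ℂ} (hg : DifferentiableOn ℂ g (ball 0 1))
    (hi : InjOn g (ball 0 1)) (hm : MapsTo g (ball 0 1) (ball 0 1)) {μ : Measure ℂ}
    [IsFiniteMeasure μ] (hle : ∀ z ∈ ball (0 : ℂ) 1, pot μ z ≤ 1) {C : Set ℂ}
    (hC : C ⊆ ball 0 1) (hCm : MeasurableSet C) :
    ∫⁻ y in g '' C, ENNReal.ofReal (gr 0 (Function.invFunOn g (ball 0 1) y)) ∂μ ≤ 1 := by
  have h0 : (0 : ℂ) ∈ ball (0 : ℂ) 1 := by simp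
  calc ∫⁻ y in g '' C, ENNReal.ofReal (gr 0 (Function.invFunOn g (ball 0 1) y)) ∂μ
      ≤ ∫⁻ y in g '' C, ENNReal.ofReal (gr (g 0) y) ∂μ := by
        refine setLIntegral_mono' (measurableSet_image hg hi hC hCm) ?_
        rintro _ ⟨ξ, hξ, rfl⟩
        refine ENNReal.ofReal_le_ofReal ?_
        rw [inv_eq hi (hC hξ)]
        by_cases hne : (0 : ℂ) = ξ
        · rw [← hne, gr_self, gr_self]
        · exact gr_mono hg hi hm (hC hξ) h0 hne
    _ ≤ ∫⁻ y, ENNReal.ofReal (gr (g 0) y) ∂μ := setLIntegral_le_lintegral _ _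
    _ ≤ 1 := hle _ (hm h0)

/-- the inequality between the Green functions of the disk with poles `0` and `(1-2d)ζ` -/
theorem gr_near {ζ ξ : ℂ} {d : ℝ} (hd : 0 < d) (hd1 : d < 1 / 8) (hζ : ‖ζ‖ = 1) (hξ : ‖ξ‖ < 1)
    (hξζ : ‖ξ - ζ‖ ≤ d) : gr 0 ξ ≤ 8 * d * gr (((1 - 2 * d : ℝ) : ℂ) * ζ) ξ := by
  set w : ℂ := ((1 - 2 * d : ℝ) : ℂ) * ζ with hw
  have hwn : ‖w‖ = 1 - 2 * d := by
    rw [hw, norm_mul, hζ, mul_one, Complex.norm_real, Real.norm_eq_abs, abs_of_pos (by linarith)]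
  have hξn : 1 - d ≤ ‖ξ‖ := by
    have := norm_sub_norm_le ζ ξ
    rw [norm_sub_rev] at this
    linarith
  -- the denominators
  have hA : ‖1 - conj ξ * w‖ ≤ 3 * d := by
    have e : 1 - conj ξ * w = conj (ζ - ξ) * ζ + ((2 * d : ℝ) : ℂ) * (conj ξ * ζ) := by
      have : conj ζ * ζ = 1 := by
        rw [mul_comm, Complex.mul_conj, Complex.normSq_eq_norm_sq, hζ]; simp
      rw [hw, map_sub, sub_mul, this]; push_cast; ring
    rw [e]
    refine (norm_add_le _ _).trans ?_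
    rw [norm_mul, norm_mul, norm_mul, RCLike.norm_conj, RCLike.norm_conj, hζ, Complex.norm_real,
      Real.norm_eq_abs, abs_of_pos (by linarith : (0 : ℝ) < 2 * d), norm_sub_rev]
    nlinarith [norm_nonneg ξ]
  have hne : w ≠ ξ := by
    intro h
    have : ‖w - ζ‖ = 2 * d := by
      have e : w - ζ = ((-(2 * d) : ℝ) : ℂ) * ζ := by rw [hw]; push_cast; ring
      rw [e, norm_mul, hζ, mul_one, Complex.norm_real, Real.norm_eq_abs, abs_neg,
        abs_of_pos (by linarith)]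
    rw [h] at this
    linarith
  have hid := bl_id ξ w
  have hB : 0 < ‖w - ξ‖ := norm_pos_iff.2 (sub_ne_zero.2 hne)
  have hDn : 0 < ‖1 - conj ξ * w‖ := norm_pos_iff.2 (den_ne hξ (by rw [hwn]; linarith))
  have hξ0 : 0 < ‖ξ‖ := by linarith
  -- left side
  have hL : gr 0 ξ ≤ (1 - ‖ξ‖ ^ 2) / (2 * ‖ξ‖ ^ 2) := by
    have e : gr 0 ξ = Real.log (1 / ‖ξ‖ ^ 2) / 2 := by
      rw [gr]; simp [Real.log_inv]; ring
    rw [e]
    have : Real.log (1 / ‖ξ‖ ^ 2) ≤ 1 / ‖ξ‖ ^ 2 - 1 := Real.log_le_sub_one_of_pos (by positivity)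
    have e2 : (1 - ‖ξ‖ ^ 2) / (2 * ‖ξ‖ ^ 2) = (1 / ‖ξ‖ ^ 2 - 1) / 2 := by
      field_simp
    rw [e2]; linarith
  -- right side
  have hR : (1 - ‖ξ‖ ^ 2) * (1 - ‖w‖ ^ 2) / (2 * ‖1 - conj ξ * w‖ ^ 2) ≤ gr w ξ := by
    have e : gr w ξ = -Real.log (‖w - ξ‖ ^ 2 / ‖1 - conj ξ * w‖ ^ 2) / 2 := by
      rw [gr, Real.log_div hDn.ne' hB.ne', Real.log_div (by positivity) (by positivity),
        Real.log_pow, Real.log_pow]
      push_cast; ring
    rw [e]
    have : Real.log (‖w - ξ‖ ^ 2 / ‖1 - conj ξ * w‖ ^ 2) ≤ ‖w - ξ‖ ^ 2 / ‖1 - conj ξ * w‖ ^ 2 - 1 :=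
      Real.log_le_sub_one_of_pos (by positivity)
    have e2 : (1 - ‖ξ‖ ^ 2) * (1 - ‖w‖ ^ 2) / (2 * ‖1 - conj ξ * w‖ ^ 2) =
        (1 - ‖w - ξ‖ ^ 2 / ‖1 - conj ξ * w‖ ^ 2) / 2 := by
      rw [← hid]; field_simp
    rw [e2]; linarith
  refine hL.trans (le_trans ?_ (mul_le_mul_of_nonneg_left hR (by positivity)))
  rw [hwn]
  have h1 : 0 < 1 - ‖ξ‖ ^ 2 := by nlinarith
  have h2 : 1 / (2 * ‖ξ‖ ^ 2) ≤ 1 / (2 * (7 / 8) ^ 2) := by
    apply one_div_le_one_div_of_le (by norm_num)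
    nlinarith
  have h3 : (1 - (1 - 2 * d) ^ 2) / (2 * (3 * d) ^ 2) ≤
      (1 - (1 - 2 * d) ^ 2) / (2 * ‖1 - conj ξ * w‖ ^ 2) := by
    apply div_le_div_of_nonneg_left (by nlinarith) (by positivity)
    have : ‖1 - conj ξ * w‖ ^ 2 ≤ (3 * d) ^ 2 := by
      apply pow_le_pow_left₀ hDn.le hA
    linarith
  have h4 : 1 / (2 * (7 / 8) ^ 2) ≤ 8 * d * ((1 - (1 - 2 * d) ^ 2) / (2 * (3 * d) ^ 2)) := by
    have e : 8 * d * ((1 - (1 - 2 * d) ^ 2) / (2 * (3 * d) ^ 2)) = 16 * (1 - d) / 9 := by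
      field_simp; ring
    rw [e]; norm_num; linarith
  have h5 : 8 * d * ((1 - (1 - 2 * d) ^ 2) / (2 * (3 * d) ^ 2)) ≤
      8 * d * ((1 - (1 - 2 * d) ^ 2) / (2 * ‖1 - conj ξ * w‖ ^ 2)) :=
    mul_le_mul_of_nonneg_left h3 (by positivity)
  calc (1 - ‖ξ‖ ^ 2) / (2 * ‖ξ‖ ^ 2) = (1 - ‖ξ‖ ^ 2) * (1 / (2 * ‖ξ‖ ^ 2)) := by ring
    _ ≤ (1 - ‖ξ‖ ^ 2) * (8 * d * ((1 - (1 - 2 * d) ^ 2) / (2 * ‖1 - conj ξ * w‖ ^ 2))) :=
        mul_le_mul_of_nonneg_left (h2.trans (h4.trans h5)) h1.le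
    _ = 8 * d * ((1 - ‖ξ‖ ^ 2) * (1 - (1 - 2 * d) ^ 2) / (2 * ‖1 - conj ξ * w‖ ^ 2)) := by ring

theorem exists_sphere_pt {C : Set ℂ} (hC : C ⊆ ball 0 1) (hCb : ∀ r < (1 : ℝ), ∃ w ∈ C, r < ‖w‖) :
    ∃ ζ ∈ closure C, ‖ζ‖ = 1 := by
  have hb : Bornology.IsBounded C := isBounded_ball.subset hC
  have hk : IsCompact (closure C) := hb.isCompact_closure
  obtain ⟨w, hw, _⟩ := hCb 0 one_pos
  obtain ⟨ζ, hζ, hmax⟩ := hk.exists_isMaxOn ⟨w, subset_closure hw⟩ continuous_norm.continuousOn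
  refine ⟨ζ, hζ, le_antisymm ?_ ?_⟩
  · have : closure C ⊆ closedBall 0 1 := closure_minimal (hC.trans ball_subset_closedBall) isClosed_closedBall
    simpa using this hζ
  · by_contra h
    push Not at h
    obtain ⟨w, hw, hwr⟩ := hCb ‖ζ‖ h
    exact absurd (hmax (subset_closure hw)) (not_le.2 hwr)

theorem green_local {g : ℂ → ℂ} (hg : DifferentiableOn ℂ g (ball 0 1)) (hi : InjOn g (ball 0 1))
    (hm : MapsTo g (ball 0 1) (ball 0 1)) {μ : Measure ℂ} [IsFiniteMeasure μ]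
    (hle : ∀ z ∈ ball (0 : ℂ) 1, pot μ z ≤ 1) {C : Set ℂ} (hC : C ⊆ ball 0 1)
    (hCm : MeasurableSet C) (hCb : ∀ r < (1 : ℝ), ∃ w ∈ C, r < ‖w‖) :
    ∫⁻ y in g '' C, ENNReal.ofReal (gr 0 (Function.invFunOn g (ball 0 1) y)) ∂μ ≤
      8 * Metric.ediam C := by
  have hb : Bornology.IsBounded C := isBounded_ball.subset hC
  obtain ⟨ζ, hζC, hζ⟩ := exists_sphere_pt hC hCb
  have hed : Metric.ediam C = ENNReal.ofReal (Metric.diam C) := by
    rw [Metric.diam, ENNReal.ofReal_toReal hb.ediam_ne_top]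
  set d := Metric.diam C with hd
  have hdist : ∀ ξ ∈ C, ‖ξ - ζ‖ ≤ d := by
    intro ξ hξ
    rw [← dist_eq_norm, hd, ← Metric.diam_closure]
    exact Metric.dist_le_diam_of_mem hb.closure (subset_closure hξ) hζC
  have hdpos : 0 < d := by
    obtain ⟨w, hw, _⟩ := hCb 0 one_pos
    have h1 : ‖w‖ < 1 := by simpa using hC hw
    have h2 : 0 < ‖w - ζ‖ := by
      rw [norm_pos_iff, sub_ne_zero]
      rintro rfl
      linarith
    exact h2.trans_le (hdist w hw)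
  by_cases hd1 : d < 1 / 8
  · set w₀ : ℂ := ((1 - 2 * d : ℝ) : ℂ) * ζ with hw₀
    have hw₀b : w₀ ∈ ball (0 : ℂ) 1 := by
      rw [mem_ball_zero_iff, hw₀, norm_mul, hζ, mul_one, Complex.norm_real, Real.norm_eq_abs,
        abs_of_pos (by linarith)]
      linarith
    have hne : ∀ ξ ∈ C, w₀ ≠ ξ := by
      rintro ξ hξ rfl
      have h1 := hdist _ hξ
      have e : w₀ - ζ = ((-(2 * d) : ℝ) : ℂ) * ζ := by rw [hw₀]; push_cast; ring
      rw [e, norm_mul, hζ, mul_one, Complex.norm_real, Real.norm_eq_abs, abs_neg,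
        abs_of_pos (by linarith)] at h1
      linarith
    calc ∫⁻ y in g '' C, ENNReal.ofReal (gr 0 (Function.invFunOn g (ball 0 1) y)) ∂μ
        ≤ ∫⁻ y in g '' C, ENNReal.ofReal (8 * d) * ENNReal.ofReal (gr (g w₀) y) ∂μ := by
          refine setLIntegral_mono' (measurableSet_image hg hi hC hCm) ?_
          rintro _ ⟨ξ, hξ, rfl⟩
          rw [inv_eq hi (hC hξ), ← ENNReal.ofReal_mul (by positivity)]
          refine ENNReal.ofReal_le_ofReal ?_
          have hξ1 : ‖ξ‖ < 1 := by simpa using hC hξ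
          exact (gr_near hdpos hd1 hζ hξ1 (hdist ξ hξ)).trans
            (mul_le_mul_of_nonneg_left (gr_mono hg hi hm (hC hξ) hw₀b (hne ξ hξ)) (by positivity))
      _ ≤ ∫⁻ y, ENNReal.ofReal (8 * d) * ENNReal.ofReal (gr (g w₀) y) ∂μ :=
          setLIntegral_le_lintegral _ _
      _ = ENNReal.ofReal (8 * d) * pot μ (g w₀) := by
          rw [lintegral_const_mul', pot]
          exact ENNReal.ofReal_ne_top
      _ ≤ ENNReal.ofReal (8 * d) * 1 := by gcongr; exact hle _ (hm hw₀b)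
      _ = 8 * Metric.ediam C := by
          rw [mul_one, hed, ENNReal.ofReal_mul (by norm_num)]
          congr 1
          norm_num
  · refine (green_local_one hg hi hm hle hC hCm).trans ?_
    rw [hed]
    push Not at hd1
    calc (1 : ℝ≥0∞) = ENNReal.ofReal (8 * (1 / 8)) := by norm_num
      _ ≤ ENNReal.ofReal (8 * d) := ENNReal.ofReal_le_ofReal (by linarith)
      _ = 8 * ENNReal.ofReal d := by
          rw [ENNReal.ofReal_mul (by norm_num)]
          congr 1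
          norm_num

/-! ### the mean value inequality -/

theorem ofReal_integral_le {α : Type*} [MeasurableSpace α] {ν : Measure α} (f : α → ℝ) :
    ENNReal.ofReal (∫ x, f x ∂ν) ≤ ∫⁻ x, ENNReal.ofReal (f x) ∂ν := by
  by_cases hf : Integrable f ν
  · rw [integral_eq_lintegral_pos_part_sub_lintegral_neg_part hf]
    refine (ENNReal.ofReal_le_ofReal (sub_le_self _ ENNReal.toReal_nonneg)).trans ?_
    exact ENNReal.ofReal_toReal_le
  · rw [integral_undef hf]; simp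

theorem ofReal_circleAverage_le (φ : ℂ → ℝ) (c : ℂ) (R : ℝ) :
    ENNReal.ofReal (Real.circleAverage φ c R) ≤
      ENNReal.ofReal (2 * Real.pi)⁻¹ * ∫⁻ θ in Ioc 0 (2 * Real.pi), ENNReal.ofReal (φ (circleMap c R θ)) := by
  rw [Real.circleAverage_def, smul_eq_mul, ENNReal.ofReal_mul (by positivity),
    intervalIntegral.integral_of_le Real.two_pi_pos.le]
  gcongr
  exact ofReal_integral_le _

/-- pointwise inequality, in terms of a nonvanishing holomorphic function `h` -/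
theorem point_ineq {g h : ℂ → ℂ} {y p : ℂ} {ρ : ℝ} (hρ : 0 < ρ) (hρ1 : ρ < 1)
    (hh : DifferentiableOn ℂ h (ball 0 1)) (hh0 : ∀ w ∈ ball (0 : ℂ) 1, h w ≠ 0)
    (hle : ∀ w ∈ ball (0 : ℂ) 1, w ≠ p → -Real.log ‖h w‖ ≤ gr (g w) y) :
    ENNReal.ofReal (-Real.log ‖h 0‖) ≤ ENNReal.ofReal (2 * Real.pi)⁻¹ *
      ∫⁻ θ in Ioc 0 (2 * Real.pi), ENNReal.ofReal (gr (g (circleMap 0 ρ θ)) y) := by
  have hsub : closedBall (0 : ℂ) |ρ| ⊆ ball 0 1 := by
    rw [abs_of_pos hρ]; exact closedBall_subset_ball hρ1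
  have h1 : AnalyticOnNhd ℂ h (closedBall 0 |ρ|) :=
    (hh.analyticOnNhd isOpen_ball).mono hsub
  have h2 := h1.circleAverage_log_norm_of_ne_zero fun u hu => hh0 u (hsub hu)
  have h3 : -Real.log ‖h 0‖ = Real.circleAverage (fun w => -Real.log ‖h w‖) 0 ρ := by
    rw [← h2, Real.circleAverage_def, Real.circleAverage_def, intervalIntegral.integral_neg, smul_neg]
  rw [h3]
  refine (ofReal_circleAverage_le _ _ _).trans ?_
  refine mul_le_mul' le_rfl (lintegral_mono_ae ?_)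
  have hnull : (volume : Measure ℝ) (circleMap 0 ρ ⁻¹' {p}) = 0 :=
    ((countable_singleton p).preimage_circleMap 0 hρ.ne').measure_zero _
  have hae : ∀ᵐ θ ∂(volume : Measure ℝ), circleMap 0 ρ θ ≠ p := by
    rw [ae_iff]
    convert hnull using 2
    ext θ
    simp
  filter_upwards [ae_restrict_of_ae hae] with θ hθ
  refine ENNReal.ofReal_le_ofReal (hle _ ?_ hθ)
  rw [mem_ball_zero_iff, norm_circleMap_zero, abs_of_pos hρ]
  exact hρ1

theorem mean_ineq {g : ℂ → ℂ} (hg : DifferentiableOn ℂ g (ball 0 1)) (hi : InjOn g (ball 0 1))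
    (hm : MapsTo g (ball 0 1) (ball 0 1)) (hd : ∀ w ∈ ball (0 : ℂ) 1, deriv g w ≠ 0)
    {ρ : ℝ} (hρ : 0 < ρ) (hρ1 : ρ < 1) {y : ℂ} (hy : y ∈ ball (0 : ℂ) 1) :
    ENNReal.ofReal (gr (g 0) y) ≤
      (g '' ball 0 1).indicator (fun y => ENNReal.ofReal (gr 0 (Function.invFunOn g (ball 0 1) y))) y +
      ENNReal.ofReal (2 * Real.pi)⁻¹ *
      ∫⁻ θ in Ioc 0 (2 * Real.pi), ENNReal.ofReal (gr (g (circleMap 0 ρ θ)) y) := by
  have hy1 : ‖y‖ < 1 := by simpa using hy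
  have h0 : (0 : ℂ) ∈ ball (0 : ℂ) 1 := by simp
  have hBg : DifferentiableOn ℂ (fun w => 1 - conj y * g w) (ball 0 1) := by fun_prop
  by_cases hyg : y ∈ g '' ball 0 1
  · rw [indicator_of_mem hyg]
    obtain ⟨p, hp, rfl⟩ := hyg
    have hp1 : ‖p‖ < 1 := by simpa using hp
    rw [inv_eq hi hp]
    by_cases hp0 : p = 0
    · rw [hp0, gr_self]; simp
    -- the function `h`
    set h : ℂ → ℂ := fun w => dslope g p w * (1 - conj p * w) / (1 - conj (g p) * g w) with hh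
    have hden : ∀ w ∈ ball (0 : ℂ) 1, 1 - conj (g p) * g w ≠ 0 := fun w hw =>
      den_ne hy1 (by simpa using (mem_ball_zero_iff.1 (hm hw)).le)
    have hhd : DifferentiableOn ℂ h (ball 0 1) := by
      refine DifferentiableOn.div (DifferentiableOn.mul ?_ (by fun_prop)) hBg hden
      exact (Complex.differentiableOn_dslope (isOpen_ball.mem_nhds hp)).2 hg
    have hds : ∀ w ∈ ball (0 : ℂ) 1, dslope g p w ≠ 0 := by
      intro w hw
      by_cases hwp : w = p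
      · rw [hwp, dslope_same]; exact hd p hp
      · rw [dslope_of_ne _ hwp, slope_def_field]
        exact div_ne_zero (sub_ne_zero.2 fun e => hwp (hi hw hp e)) (sub_ne_zero.2 hwp)
    have hh0 : ∀ w ∈ ball (0 : ℂ) 1, h w ≠ 0 := fun w hw =>
      div_ne_zero (mul_ne_zero (hds w hw) (den_ne hp1 (by simpa using (mem_ball_zero_iff.1 hw).le)))
        (hden w hw)
    have hfac : ∀ w ∈ ball (0 : ℂ) 1, w ≠ p → Bl (g p) (g w) = Bl p w * h w := by
      intro w hw hwp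
      have e1 : 1 - conj p * w ≠ 0 := den_ne hp1 (by simpa using (mem_ball_zero_iff.1 hw).le)
      have e2 := hden w hw
      have e3 : w - p ≠ 0 := sub_ne_zero.2 hwp
      rw [hh, Bl, Bl]
      simp only
      rw [dslope_of_ne _ hwp, slope_def_field]
      rw [div_mul_div_comm, div_eq_div_iff e2 (mul_ne_zero e1 e2)]
      field_simp
    have hgr : ∀ w ∈ ball (0 : ℂ) 1, w ≠ p → gr (g w) (g p) = gr w p + -Real.log ‖h w‖ := by
      intro w hw hwp
      rw [gr_eq, gr_eq, hfac w hw hwp, norm_mul, Real.log_mul]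
      · ring
      · exact (norm_pos_iff.2 (Bl_ne_zero hp1 (by simpa using (mem_ball_zero_iff.1 hw).le) hwp)).ne'
      · exact (norm_pos_iff.2 (hh0 w hw)).ne'
    rw [hgr 0 h0 (Ne.symm hp0)]
    refine ENNReal.ofReal_add_le.trans ?_
    refine add_le_add le_rfl ?_
    refine point_ineq (p := p) hρ hρ1 hhd hh0 fun w hw hwp => ?_
    rw [hgr w hw hwp]
    have : 0 ≤ gr w p := by
      rw [gr_eq]
      have := norm_Bl_lt hp1 (mem_ball_zero_iff.1 hw)
      linarith [Real.log_nonpos (norm_nonneg _) this.le]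
    linarith
  · rw [indicator_of_notMem hyg, zero_add]
    set h : ℂ → ℂ := fun w => (g w - y) / (1 - conj y * g w) with hh
    have hden : ∀ w ∈ ball (0 : ℂ) 1, 1 - conj y * g w ≠ 0 := fun w hw =>
      den_ne hy1 (by simpa using (mem_ball_zero_iff.1 (hm hw)).le)
    have hhd : DifferentiableOn ℂ h (ball 0 1) :=
      DifferentiableOn.div (by fun_prop) hBg hden
    have hh0 : ∀ w ∈ ball (0 : ℂ) 1, h w ≠ 0 := fun w hw =>
      div_ne_zero (sub_ne_zero.2 fun e => hyg ⟨w, hw, e⟩) (hden w hw)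
    have hgr : ∀ w, gr (g w) y = -Real.log ‖h w‖ := fun w => gr_eq _ _
    rw [hgr 0]
    exact point_ineq (p := 0) hρ hρ1 hhd hh0 fun w _ _ => (hgr w).ge

theorem green_mean {g : ℂ → ℂ} (hg : DifferentiableOn ℂ g (ball 0 1)) (hi : InjOn g (ball 0 1))
    (hm : MapsTo g (ball 0 1) (ball 0 1)) (hd : ∀ w ∈ ball (0 : ℂ) 1, deriv g w ≠ 0)
    {μ : Measure ℂ} [IsFiniteMeasure μ] {K : Set ℂ} (_hK : IsCompact K) (hK1 : K ⊆ ball 0 1)
    (hμ : μ Kᶜ = 0) (_hat : ∀ z : ℂ, μ {z} = 0) {ρ : ℝ} (hρ : 0 < ρ) (hρ1 : ρ < 1) {m : ℝ≥0∞}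
    (hm1 : ∀ w : ℂ, ‖w‖ = ρ → pot μ (g w) ≤ m) :
    pot μ (g 0) ≤
      (∫⁻ y in g '' ball 0 1, ENNReal.ofReal (gr 0 (Function.invFunOn g (ball 0 1) y)) ∂μ) + m := by
  have hcg : Continuous fun θ => g (circleMap 0 ρ θ) := by
    refine hg.continuousOn.comp_continuous (continuous_circleMap 0 ρ) fun θ => ?_
    rw [mem_ball_zero_iff, norm_circleMap_zero, abs_of_pos hρ]
    exact hρ1
  have hmeas : Measurable fun p : ℂ × ℝ => ENNReal.ofReal (gr (g (circleMap 0 ρ p.2)) p.1) := by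
    refine ENNReal.measurable_ofReal.comp (measurable_gr.comp (f := fun p : ℂ × ℝ => (g (circleMap 0 ρ p.2), p.1)) ?_)
    exact (hcg.measurable.comp measurable_snd).prodMk measurable_fst
  have hae : ∀ᵐ y ∂μ, y ∈ ball (0 : ℂ) 1 := by
    have : ∀ᵐ y ∂μ, y ∈ K := by rw [ae_iff]; exact hμ
    filter_upwards [this] with y hy using hK1 hy
  calc pot μ (g 0) = ∫⁻ y, ENNReal.ofReal (gr (g 0) y) ∂μ := rfl
    _ ≤ ∫⁻ y, ((g '' ball 0 1).indicator
          (fun y => ENNReal.ofReal (gr 0 (Function.invFunOn g (ball 0 1) y))) y +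
        ENNReal.ofReal (2 * Real.pi)⁻¹ *
        ∫⁻ θ in Ioc 0 (2 * Real.pi), ENNReal.ofReal (gr (g (circleMap 0 ρ θ)) y)) ∂μ := by
        refine lintegral_mono_ae ?_
        filter_upwards [hae] with y hy using mean_ineq hg hi hm hd hρ hρ1 hy
    _ = (∫⁻ y, (g '' ball 0 1).indicator
          (fun y => ENNReal.ofReal (gr 0 (Function.invFunOn g (ball 0 1) y))) y ∂μ) +
        ∫⁻ y, (ENNReal.ofReal (2 * Real.pi)⁻¹ *
        ∫⁻ θ in Ioc 0 (2 * Real.pi), ENNReal.ofReal (gr (g (circleMap 0 ρ θ)) y)) ∂μ := by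
        refine lintegral_add_right _ ?_
        exact (Measurable.lintegral_prod_right' hmeas).const_mul _
    _ = (∫⁻ y in g '' ball 0 1, ENNReal.ofReal (gr 0 (Function.invFunOn g (ball 0 1) y)) ∂μ) +
        ENNReal.ofReal (2 * Real.pi)⁻¹ *
        ∫⁻ θ in Ioc 0 (2 * Real.pi), (∫⁻ y, ENNReal.ofReal (gr (g (circleMap 0 ρ θ)) y) ∂μ) := by
        rw [lintegral_indicator (measurableSet_image hg hi subset_rfl measurableSet_ball),
          lintegral_const_mul' _ _ ENNReal.ofReal_ne_top, lintegral_lintegral_swap]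
        exact hmeas.aemeasurable
    _ ≤ (∫⁻ y in g '' ball 0 1, ENNReal.ofReal (gr 0 (Function.invFunOn g (ball 0 1) y)) ∂μ) +
        ENNReal.ofReal (2 * Real.pi)⁻¹ * ∫⁻ _θ in Ioc (0 : ℝ) (2 * Real.pi), m := by
        refine add_le_add le_rfl (mul_le_mul' le_rfl (lintegral_mono fun θ => hm1 _ ?_))
        rw [norm_circleMap_zero, abs_of_pos hρ]
    _ = _ := by
        congr 1
        rw [setLIntegral_const, Real.volume_Ioc, sub_zero, mul_comm m, ← mul_assoc,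
          ← ENNReal.ofReal_mul (by positivity), inv_mul_cancel₀ Real.two_pi_pos.ne']
        simp

end Pool.Agent.helper45.QD
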